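import Pool.Agent.H.MP_830e61_lc.Ops

/-!
MP_830e61_lc: for `V` the variety of right regular, left regular or regular bands, `K(R_V)` is
decidable for every Birkhoff operator `K` in which no `H` is applied after an `S`; in particular
`S(R_V)` is decidable.  Finite semigroups embeddable in a (possibly infinite) regular semigroup
whose idempotents form a band in `V` embed in a finite one of explicitly bounded size.
-/

namespace Pool.Agent.H.MP_830e61_lc.Variants.RegularBands

open Pool.Agent.H.MP_830e61_lc

universe u v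

theorem result :
    (∀ (V : BandVar) (K : List Op), (∀ A B, K = A ++ Op.H :: B → Op.S ∉ B) →
      Recursive (birkhoff K (RV V))) ∧
    (∀ (V : BandVar) (S : Type v) [Semigroup S] [Finite S] (T : Type u) [Semigroup T],
      Regular T → IdemClosed T → V.Idem T → ∀ φ : S →ₙ* T, Function.Injective φ →
      ∃ (T' : Type u) (_ : Semigroup T'), Finite T' ∧ Nat.card T' ≤ bound (Nat.card S) ∧
        Regular T' ∧ IdemClosed T' ∧ V.Idem T' ∧ ∃ ψ : S →ₙ* T', Function.Injective ψ) := by
  refine ⟨main, ?_⟩
  intro V S _ _ T _ h1 h2 h3 φ hφ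
  obtain ⟨T', i, a1, a2, a3, a4, a5, ψ, hψ⟩ := embed V h1 h2 h3 φ
  exact ⟨T', i, a1, a2, a3, a4, a5, ψ, fun a b h => hφ ((hψ a b).1 h)⟩

end Pool.Agent.H.MP_830e61_lc.Variants.RegularBands
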